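import Mathlib
import Pool.Agent.R171.Dis.Inf

/-!
# Gerver's conditions are necessary: `θ(P)` is the least `α` satisfying them
-/

namespace Pool.Agent.Results.MP_ee7524_co.GerverConditionsNecessary

open MeasureTheory

/-- The region `A` of the plane has the angle `θ` at the point `y`: for all small `r > 0` the part
of `A` in the disk of radius `r` around `y` has the area `θ / 2 * r ^ 2` of a circular sector of
angle `θ`. -/
def HasAngle (A : Set ℂ) (y : ℂ) (θ : ℝ) : Prop :=
  ∃ ε : ℝ, 0 < ε ∧ ∀ r : ℝ, 0 < r → r < ε →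
    volume (A ∩ Metric.ball y r) = ENNReal.ofReal (θ / 2 * r ^ 2)

/-- `P` is a polygon with the vertices `x 0, …, x (n - 1)` and the interior angles
`θ 0, …, θ (n - 1)`, all in `(0, 2π)`: at the vertex `x i` the region has the angle `θ i`, at all its
other points it has the angle `π` (points of a side) or `2π` (interior points), and the sum of the
interior angles is `(n - 2) π`. Every simple polygon, convex or not, has these properties. -/
structure IsPolygon {n : ℕ} (P : Set ℂ) (x : Fin n → ℂ) (θ : Fin n → ℝ) : Prop where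
  /-- the vertices are distinct -/
  inj : Function.Injective x
  /-- the interior angles are between `0` and `2π` -/
  range : ∀ i, 0 < θ i ∧ θ i < 2 * Real.pi
  /-- `θ i` is the interior angle at `x i` -/
  angle : ∀ i, HasAngle P (x i) (θ i)
  /-- the other points are on a side or in the interior -/
  other : ∀ y ∈ P, (∀ i, x i ≠ y) → HasAngle P y Real.pi ∨ HasAngle P y (2 * Real.pi)
  /-- the sum of the interior angles -/
  angle_sum : ∑ i, θ i = (n - 2) * Real.pi

/-- The closed region of a nondegenerate triangle of the plane. -/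
def region (t : Affine.Triangle ℝ ℂ) : Set ℂ := convexHull ℝ (Set.range t.points)

/-- The angle of the triangle `t` at its corner `m` (the indices are taken modulo `3`). -/
noncomputable def cornerAngle (t : Affine.Triangle ℝ ℂ) (m : Fin 3) : ℝ :=
  EuclideanGeometry.angle (t.points (m + 1)) (t.points m) (t.points (m + 2))

/-- `P` has a dissection into finitely many triangles with pairwise disjoint interiors (not
necessarily edge to edge) all of whose angles are at most `α`. -/
def HasDissection (P : Set ℂ) (α : ℝ) : Prop :=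
  ∃ (N : ℕ) (T : Fin N → Affine.Triangle ℝ ℂ), (⋃ j, region (T j)) = P ∧
    (∀ i j, i ≠ j → Disjoint (interior (region (T i))) (interior (region (T j)))) ∧
    ∀ j m, cornerAngle (T j) m ≤ α

/-- `θ(P)`, the infimum of the `α` such that `P` has a dissection with all angles at most `α`. -/
noncomputable def theta (P : Set ℂ) : ℝ := sInf {α | HasDissection P α}

/-- Gerver's condition at `α`: the angles can be split into classes `R_1, R_2, …` (`θ i` is in the
class `R_(k i)`) such that `k (π - 2 α) ≤ θ i ≤ k α` whenever `θ i ∈ R_k`, and such that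
`∑_k (3 - k) |R_k| ≥ 6` if `α < 2π/5`, and `∑_k (3 - k) |R_k| = 6` if `α < 5π/14`. -/
def GerverCond {n : ℕ} (θ : Fin n → ℝ) (α : ℝ) : Prop :=
  ∃ k : Fin n → ℕ, (∀ i, 1 ≤ k i ∧ k i * (Real.pi - 2 * α) ≤ θ i ∧ θ i ≤ k i * α) ∧
    (α < 2 * Real.pi / 5 → 6 ≤ ∑ i, (3 - (k i : ℤ))) ∧
    (α < 5 * Real.pi / 14 → ∑ i, (3 - (k i : ℤ)) = 6)

/-- The least `α ≥ π/3` satisfying Gerver's condition; it depends only on the interior angles. -/
noncomputable def gerverValue {n : ℕ} (θ : Fin n → ℝ) : ℝ :=
  sInf {α | Real.pi / 3 ≤ α ∧ GerverCond θ α}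

/-- Gerver's sufficient conditions are necessary: (1) if `P` has a dissection with all angles at
most `α`, then Gerver's condition holds at `α`; (2) it holds at `α = θ(P)`, and `θ(P)` is at least
the least `α` at which it holds; (3) hence, for a polygon `P` for which Gerver's theorem holds
(the condition at `α` implies `θ(P) ≤ α`), `θ(P)` is equal to this least `α`. -/
theorem result {n : ℕ} {P : Set ℂ} {x : Fin n → ℂ} {θ : Fin n → ℝ} (hP : IsPolygon P x θ) :
    (∀ α, HasDissection P α → Real.pi / 3 ≤ α ∧ GerverCond θ α) ∧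
    ((∃ α, HasDissection P α) →
      Real.pi / 3 ≤ theta P ∧ GerverCond θ (theta P) ∧ gerverValue θ ≤ theta P ∧
      ((∀ α, Real.pi / 3 ≤ α → GerverCond θ α → theta P ≤ α) → theta P = gerverValue θ)) := by
  have H : Pool.Agent.R171.Dis.Polyg P x θ := ⟨hP.inj, hP.range, hP.angle, hP.other, hP.angle_sum⟩
  have h1 : ∀ α, HasDissection P α → Real.pi / 3 ≤ α ∧ GerverCond θ α := by
    rintro α ⟨N, T, hcov, hdis, hα⟩
    exact Pool.Agent.R171.Dis.main_all H hcov hdis hα
  refine ⟨h1, fun hne => ?_⟩
  obtain ⟨h2, h3⟩ := Pool.Agent.R171.Dis.cond_inf (A := {α | HasDissection P α}) H hne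
    (fun α hα => h1 α hα)
  have hbdd : BddBelow {α | Real.pi / 3 ≤ α ∧ GerverCond θ α} := ⟨Real.pi / 3, fun _ h => h.1⟩
  have h4 : gerverValue θ ≤ theta P := csInf_le hbdd ⟨h2, h3⟩
  refine ⟨h2, h3, h4, fun hG => le_antisymm ?_ h4⟩
  exact le_csInf ⟨theta P, h2, h3⟩ fun α hα => hG α hα.1 hα.2

end Pool.Agent.Results.MP_ee7524_co.GerverConditionsNecessary
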